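import Pool.Agent.H30.VM.TargetsF
import Pool.Agent.H17.VG.PSI
import Pool.Agent.H66.VG.VE

/-!
# Row PTA: points over `K` of the equations of `X`
-/

set_option autoImplicit false

namespace Pool.Agent.H49.VMP

open MvPolynomial SC Pool.Agent.H27.LV Pool.Agent.H17.VG Pool.Agent.H30.VM
open Pool.Agent.H17.CI (Tup IlT PQT TxT frmT upT RatT)

namespace PTA

/-- exponents `(d - 1) e_q + e_i` -/
def mq (n d : ℕ) (hd : 1 ≤ d) (q i : Fin (n + 1)) : Mon (n + 1) d :=
  ⟨fun j => (if j = q then d - 1 else 0) + (if j = i then 1 else 0), by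
    rw [Finset.sum_add_distrib, Finset.sum_ite_eq' Finset.univ q,
      Finset.sum_ite_eq' Finset.univ i]
    simp only [Finset.mem_univ, if_true]
    omega⟩

lemma prod_mq {K : Type} [Field K] {n d : ℕ} (hd : 1 ≤ d) (q i : Fin (n + 1))
    (x : Fin (n + 1) → K) : ∏ j, x j ^ (mq n d hd q i).1 j = x q ^ (d - 1) * x i := by
  simp only [mq, pow_add, Finset.prod_mul_distrib]
  have h1 : ∀ j : Fin (n + 1), x j ^ (if j = q then d - 1 else 0) =
      if j = q then x q ^ (d - 1) else 1 := by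
    intro j
    by_cases hj : j = q
    · subst hj; simp
    · simp [hj]
  have h2 : ∀ j : Fin (n + 1), x j ^ (if j = i then 1 else 0) = if j = i then x i else 1 := by
    intro j
    by_cases hj : j = i
    · subst hj; simp
    · simp [hj]
  simp_rw [h1, h2]
  rw [Finset.prod_ite_eq' Finset.univ q, Finset.prod_ite_eq' Finset.univ i]
  simp

/-- the form `Φ` in the coordinates with the index `q` -/
noncomputable def ps {k : Type} [Field k] {n d : ℕ} (hd : 1 ≤ d) (q : Fin (n + 1))
    (Φ : MvPolynomial (Fin (n + 1)) k) : MvPolynomial (Mon (n + 1) d) k :=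
  aeval (fun i => (X (mq n d hd q i) : MvPolynomial (Mon (n + 1) d) k)) Φ

lemma key {k : Type} [Field k] {n d m : ℕ} (hd : 1 ≤ d) (q : Fin (n + 1))
    (Φ : MvPolynomial (Fin (n + 1)) k) (hm : Φ.IsHomogeneous m) (K : Type) [Field K]
    [Algebra k K] (z : Mon (n + 1) d → K) (x : Fin (n + 1) → K) (G : K)
    (hz : ∀ M : Mon (n + 1) d, z M = (∏ i, x i ^ M.1 i) / G) :
    aeval z (ps hd q Φ) = (x q ^ (d - 1) / G) ^ m * eval x (up K Φ) := by
  have h1 : aeval z (ps hd q Φ) = aeval (fun i => (x q ^ (d - 1) / G) * x i) Φ := by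
    unfold ps
    rw [← AlgHom.comp_apply, comp_aeval]
    congr 1
    refine congrArg _ ?_
    funext i
    rw [aeval_X, hz, prod_mq, mul_div_right_comm]
  have h2 := TT.eval_smul_hom (hm.map (algebraMap k K)) (x q ^ (d - 1) / G) x
  rw [h1]
  refine Eq.trans ?_ h2
  rw [eval_map, aeval_def]

lemma up_self {k : Type} [Field k] {n : ℕ} (G : MvPolynomial (Fin (n + 1)) k) : up k G = G := by
  unfold up
  rw [Algebra.algebraMap_self, map_id]

lemma hom_frm {k : Type} [Field k] {n d : ℕ} (c : Mon (n + 1) d → k) :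
    (frm c).IsHomogeneous d := by
  unfold frm
  refine IsHomogeneous.sum _ _ _ fun M _ => ?_
  have h1 : (C (c M) : MvPolynomial (Fin (n + 1)) k).IsHomogeneous 0 := isHomogeneous_C _ _
  have h2 := h1.mul (isHomogeneous_mono (K := k) M)
  rwa [zero_add] at h2

end PTA

open PTA in
theorem pf_PTA : T_PTA := by
  intro k K _ _ _ n ι _ _ i₀ e Z c hi₀ z hz
  have hd : 1 ≤ dgB e Z := by
    unfold dgB
    have h1 : i₀ ∈ Finset.univ \ Z := by simpa using hi₀
    have h2 := Finset.single_le_sum (f := fun i => e i + 1) (fun _ _ => Nat.zero_le _) h1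
    have h3 : 1 ≤ e i₀ + 1 := by omega
    exact h3.trans h2
  have hH : (bnd Z c).IsHomogeneous (dgB e Z) := by
    unfold bnd dgB
    exact IsHomogeneous.prod _ _ _ fun i _ => hom_frm _
  have hG : bnd Z c = frm fun M : Mon (n + 1) (dgB e Z) => (bnd Z c).coeff (fs M.1) := dec hH
  set g : Mon (n + 1) (dgB e Z) → k := fun M => (bnd Z c).coeff (fs M.1) with hg
  -- values of the boundary
  have hb : ∀ (L : Type) [Field L] [Algebra k L] (x : Fin (n + 1) → L),
      eval x (up L (bnd Z c)) = ∏ i ∈ Finset.univ \ Z, eval x (upT L (frmT c) i) := by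
    intro L _ _ x
    unfold bnd up upT up
    rw [map_prod, map_prod]
  have hk : ∀ x : Fin (n + 1) → k, (∀ i, eval x (frmT c i) = 0 ↔ i ∈ Z) →
      eval x (bnd Z c) ≠ 0 := by
    intro x hx
    unfold bnd
    rw [map_prod]
    refine Finset.prod_ne_zero_iff.2 fun i hi h => ?_
    exact (Finset.mem_sdiff.1 hi).2 ((hx i).1 h)
  have hE : ∀ q ∈ eqs g, aeval z q = 0 := by
    intro q hq
    refine hz q fun x hx => ?_
    have h1 := hk x hx
    have h2 : eval x (up k (frm g)) ≠ 0 := by rwa [up_self, ← hG]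
    have h3 := pts g (fun M : Mon (n + 1) (dgB e Z) =>
      (∏ a, x a ^ M.1 a) / eval x (up k (frm g))) x h2 (fun M => rfl) q hq
    rw [up_self, ← hG, aeval_eq_eval] at h3
    exact h3
  obtain ⟨x, p, hp, hx0, hxz⟩ := Pool.Agent.H66.VG.ve k K n (dgB e Z) g z hd hE
  rw [← hG] at hx0 hxz
  have hprod := hb K x
  refine ⟨x, ⟨p, hp⟩, fun i => ⟨fun hi => ?_, fun hi => ?_⟩, hxz⟩
  · by_contra h
    apply hx0
    rw [hprod]
    exact Finset.prod_eq_zero (Finset.mem_sdiff.2 ⟨Finset.mem_univ i, h⟩) hi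
  · have hm : (frmT c i).IsHomogeneous (e i + 1) := hom_frm _
    have h1 : ps hd p (frmT c i) ∈ eqsP Z c := by
      intro y hy
      have h2 := key hd p (frmT c i) hm k
        (fun M : Mon (n + 1) (dgB e Z) => (∏ a, y a ^ M.1 a) / eval y (bnd Z c)) y
        (eval y (bnd Z c)) (fun M => rfl)
      rw [up_self, (hy i).2 hi, mul_zero, aeval_eq_eval] at h2
      exact h2
    have h3 := hz _ h1
    rw [key hd p (frmT c i) hm K z x (eval x (up K (bnd Z c))) hxz, hp, one_pow] at h3
    rcases mul_eq_zero.1 h3 with h4 | h4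
    · exact absurd h4 (pow_ne_zero _ (div_ne_zero one_ne_zero hx0))
    · exact h4

end Pool.Agent.H49.VMP
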